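import Mathlib

open Filter Topology Set

universe u

namespace Pool.Agent.Results.MP_479f73_an.WMPFiniteDim

/-! ### Definitions -/

section Defs

variable {𝕜 : Type} [RCLike 𝕜] {E : Type u} [NormedAddCommGroup E] [NormedSpace 𝕜 E]
  {F : Type} [NormedAddCommGroup F] [NormedSpace 𝕜 F]

/-- `T` attains its norm at a point of the unit sphere. -/
def AttainsNorm (T : E →L[𝕜] F) : Prop := ∃ x : E, ‖x‖ = 1 ∧ ‖T x‖ = ‖T‖

/-- `x` is a maximizing sequence of unit vectors for `T`. -/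
def IsMaximizing (T : E →L[𝕜] F) (x : ℕ → E) : Prop :=
  (∀ n, ‖x n‖ = 1) ∧ Tendsto (fun n => ‖T (x n)‖) atTop (𝓝 ‖T‖)

variable (𝕜) in
/-- The sequence `x` converges weakly to `0`. -/
def WeaklyNull (x : ℕ → E) : Prop :=
  ∀ f : E →L[𝕜] 𝕜, Tendsto (fun n => f (x n)) atTop (𝓝 0)

variable (𝕜 E F) in
/-- The weak maximizing property of the pair `(E, F)`. -/
def WMP : Prop :=
  ∀ T : E →L[𝕜] F, (∃ x : ℕ → E, IsMaximizing T x ∧ ¬ WeaklyNull 𝕜 x) → AttainsNorm T

end Defs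

/-! ### Ultrafilter limits of functionals -/

section Real

variable {𝕜 : Type} [RCLike 𝕜] {E : Type u} [NormedAddCommGroup E] [NormedSpace 𝕜 E]

theorem exists_ultralimit (U : Ultrafilter ℕ) (g : ℕ → E →L[𝕜] 𝕜) (R : ℝ) (hg : ∀ n, ‖g n‖ ≤ R) :
    ∃ w : E →L[𝕜] 𝕜, ‖w‖ ≤ R ∧ ∀ x, Tendsto (fun n => g n x) U (𝓝 (w x)) := by
  have hc := WeakDual.isCompact_closedBall (𝕜 := 𝕜) (E := E) 0 R
  have hmem : (WeakDual.toStrongDual ⁻¹' Metric.closedBall (0 : StrongDual 𝕜 E) R) ∈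
      U.map (fun n => StrongDual.toWeakDual (g n)) := by
    rw [Ultrafilter.mem_map]
    apply Filter.mem_of_superset Filter.univ_mem
    intro n _
    simpa using hg n
  obtain ⟨w, hw, hlim⟩ := hc.ultrafilter_le_nhds' _ hmem
  refine ⟨WeakDual.toStrongDual w, by simpa using hw, fun x => ?_⟩
  have h1 : Tendsto (fun n => StrongDual.toWeakDual (g n)) U (𝓝 w) := hlim
  exact ((WeakDual.eval_continuous x).tendsto w).comp h1

/-! ### The filter of an infinite set and limsup along it -/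

/-- The trace of `atTop` on a set of naturals. -/
def trc (A : Set ℕ) : Filter ℕ := atTop ⊓ 𝓟 A

theorem L_neBot {A : Set ℕ} (hA : A.Infinite) : (trc A).NeBot := by
  rw [trc, ← Filter.frequently_mem_iff_neBot]
  exact Nat.frequently_atTop_iff_infinite.mpr hA

theorem eventually_L {A : Set ℕ} {p : ℕ → Prop} :
    (∀ᶠ n in trc A, p n) ↔ ∃ N, ∀ n ∈ A, N ≤ n → p n := by
  rw [trc, Filter.eventually_inf_principal, Filter.eventually_atTop]
  constructor
  · rintro ⟨N, h⟩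
    exact ⟨N, fun n hn hN => h n hN hn⟩
  · rintro ⟨N, h⟩
    exact ⟨N, fun n hN hn => h n hn hN⟩

theorem L_mono {A B : Set ℕ} (h : (B \ A).Finite) : trc B ≤ trc A := by
  intro s hs
  have hs' : ∀ᶠ n in trc A, n ∈ s := hs
  rw [eventually_L] at hs'
  obtain ⟨N, hN⟩ := hs'
  obtain ⟨M, hM⟩ := h.bddAbove
  show ∀ᶠ n in trc B, n ∈ s
  rw [eventually_L]
  refine ⟨max N (M + 1), fun n hn hnM => hN n ?_ (le_trans (le_max_left _ _) hnM)⟩
  by_contra hc
  have := hM ⟨hn, hc⟩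
  have h2 := le_trans (le_max_right _ _) hnM
  omega

section LS

variable {a : ℕ → ℝ} {A B : Set ℕ}

theorem bdd1 (ha : ∀ n, |a n| ≤ 1) (l : Filter ℕ) : l.IsBoundedUnder (· ≤ ·) a :=
  Filter.isBoundedUnder_of ⟨1, fun n => (abs_le.mp (ha n)).2⟩

theorem bdd2 (ha : ∀ n, |a n| ≤ 1) (l : Filter ℕ) : l.IsBoundedUnder (· ≥ ·) a :=
  Filter.isBoundedUnder_of ⟨-1, fun n => (abs_le.mp (ha n)).1⟩

theorem ls_le (ha : ∀ n, |a n| ≤ 1) (hA : A.Infinite) {c : ℝ} (h : ∀ᶠ n in trc A, a n ≤ c) :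
    limsup a (trc A) ≤ c := by
  have := L_neBot hA
  exact Filter.limsup_le_of_le ((bdd2 ha _).isCoboundedUnder_le) h

theorem le_ls (ha : ∀ n, |a n| ≤ 1) (hA : A.Infinite) {c : ℝ} (h : ∀ᶠ n in trc A, c ≤ a n) :
    c ≤ limsup a (trc A) := by
  have := L_neBot hA
  exact Filter.le_limsup_of_frequently_le h.frequently (bdd1 ha _)

theorem li_le (ha : ∀ n, |a n| ≤ 1) (hA : A.Infinite) {c : ℝ} (h : ∀ᶠ n in trc A, a n ≤ c) :
    liminf a (trc A) ≤ c := by
  have := L_neBot hA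
  exact Filter.liminf_le_of_frequently_le h.frequently (bdd2 ha _)

theorem le_li (ha : ∀ n, |a n| ≤ 1) (hA : A.Infinite) {c : ℝ} (h : ∀ᶠ n in trc A, c ≤ a n) :
    c ≤ liminf a (trc A) := by
  have := L_neBot hA
  exact Filter.le_liminf_of_le ((bdd1 ha _).isCoboundedUnder_ge) h

theorem ev_lt (ha : ∀ n, |a n| ≤ 1) {c : ℝ} (h : limsup a (trc A) < c) :
    ∀ᶠ n in trc A, a n < c :=
  Filter.eventually_lt_of_limsup_lt h (bdd1 ha _)

theorem ev_gt (ha : ∀ n, |a n| ≤ 1) {c : ℝ} (h : c < liminf a (trc A)) :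
    ∀ᶠ n in trc A, c < a n :=
  Filter.eventually_lt_of_lt_liminf h (bdd2 ha _)

theorem ls_mono (ha : ∀ n, |a n| ≤ 1) (hB : B.Infinite) (h : (B \ A).Finite) :
    limsup a (trc B) ≤ limsup a (trc A) := by
  have := L_neBot hB
  exact Filter.limsup_le_limsup_of_le (L_mono h) ((bdd2 ha _).isCoboundedUnder_le) (bdd1 ha _)

theorem li_le_ls (ha : ∀ n, |a n| ≤ 1) (hA : A.Infinite) :
    liminf a (trc A) ≤ limsup a (trc A) := by
  have := L_neBot hA
  exact Filter.liminf_le_limsup (bdd1 ha _) (bdd2 ha _)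

theorem li_neg (ha : ∀ n, |a n| ≤ 1) (hA : A.Infinite) :
    liminf (fun n => - a n) (trc A) = - limsup a (trc A) := by
  have := L_neBot hA
  have ha' : ∀ n, |(fun n => - a n) n| ≤ 1 := fun n => by simpa using ha n
  apply le_antisymm
  · by_contra hc
    rw [not_le] at hc
    obtain ⟨c, h1, h2⟩ := exists_between hc
    have h3 := ev_gt ha' h2
    have h4 : limsup a (trc A) ≤ -c := ls_le ha hA (h3.mono fun n hn => by linarith)
    linarith
  · apply le_of_forall_lt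
    intro c hc
    obtain ⟨d, h1, h2⟩ := exists_between hc
    have h3 : limsup a (trc A) < -d := by linarith
    have h4 := ev_lt ha h3
    have h5 : d ≤ liminf (fun n => - a n) (trc A) :=
      le_li ha' hA (h4.mono fun n hn => by linarith)
    linarith

end LS

/-! ### Stable subsequences -/

/-- Abstract stability: a bounded function of infinite sets which is monotone for almost
inclusion is constant on the infinite subsets of some infinite set. -/
theorem exists_stable (Φ : Set ℕ → ℝ) (C : ℝ) (hb : ∀ A, A.Infinite → Φ A ≤ C)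
    (hm : ∀ A B : Set ℕ, A.Infinite → B.Infinite → (B \ A).Finite → Φ A ≤ Φ B) :
    ∃ A : Set ℕ, A.Infinite ∧ ∀ B, B ⊆ A → B.Infinite → Φ B = Φ A := by
  have step : ∀ (m : ℕ) (A : {A : Set ℕ // A.Infinite}), ∃ B : {A : Set ℕ // A.Infinite},
      B.1 ⊆ A.1 ∧ ∀ D : Set ℕ, D ⊆ A.1 → D.Infinite → Φ D ≤ Φ B.1 + 1 / (m + 1) := by
    intro m A
    have hne : {r | ∃ D : Set ℕ, D ⊆ A.1 ∧ D.Infinite ∧ r = Φ D}.Nonempty :=
      ⟨_, A.1, le_rfl, A.2, rfl⟩
    have hbd : BddAbove {r | ∃ D : Set ℕ, D ⊆ A.1 ∧ D.Infinite ∧ r = Φ D} := by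
      refine ⟨C, ?_⟩
      rintro r ⟨D, -, hD, rfl⟩
      exact hb D hD
    have hpos : (0 : ℝ) < 1 / ((m : ℝ) + 1) := Nat.one_div_pos_of_nat
    obtain ⟨r, ⟨B, hBA, hB, rfl⟩, hr⟩ := exists_lt_of_lt_csSup hne (sub_lt_self _ hpos)
    refine ⟨⟨B, hB⟩, hBA, fun D hD hDi => ?_⟩
    have := le_csSup hbd ⟨D, hD, hDi, rfl⟩
    simp only at *
    linarith
  choose nxt hn1 hn2 using step
  obtain ⟨T, hT⟩ : ∃ T : ℕ → {A : Set ℕ // A.Infinite}, ∀ m, T (m + 1) = nxt m (T m) :=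
    ⟨fun n => Nat.rec ⟨univ, infinite_univ⟩ (fun m A => nxt m A) n, fun m => rfl⟩
  have hTm : ∀ m, (T (m + 1)).1 ⊆ (T m).1 := fun m => by rw [hT]; exact hn1 m (T m)
  have hanti : ∀ m n, m ≤ n → (T n).1 ⊆ (T m).1 := by
    intro m n h
    induction h with
    | refl => exact le_rfl
    | step _ ih => exact (hTm _).trans ih
  -- diagonal sequence
  have hex : ∀ m k : ℕ, ∃ n, n ∈ (T m).1 ∧ k < n := by
    intro m k
    obtain ⟨n, hn, hk⟩ := (T m).2.exists_gt k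
    exact ⟨n, hn, hk⟩
  choose pick hp1 hp2 using hex
  obtain ⟨d, hd0, hd⟩ : ∃ d : ℕ → ℕ, d 0 = pick 0 0 ∧ ∀ m, d (m + 1) = pick (m + 1) (d m) :=
    ⟨fun n => Nat.rec (pick 0 0) (fun m k => pick (m + 1) k) n, rfl, fun m => rfl⟩
  have hdm : StrictMono d := strictMono_nat_of_lt_succ (fun m => by rw [hd]; exact hp2 _ _)
  have hdT : ∀ m, d m ∈ (T m).1 := by
    intro m
    cases m with
    | zero => rw [hd0]; exact hp1 0 0
    | succ m => rw [hd]; exact hp1 (m + 1) (d m)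
  let A : Set ℕ := range d
  have hA : A.Infinite := Set.infinite_range_of_injective hdm.injective
  have hAT : ∀ m, (A \ (T m).1).Finite := by
    intro m
    apply (Set.finite_lt_nat m |>.image d).subset
    rintro _ ⟨⟨n, rfl⟩, hn⟩
    refine ⟨n, ?_, rfl⟩
    by_contra hc
    exact hn (hanti m n (not_lt.mp hc) (hdT n))
  refine ⟨A, hA, fun B hBA hB => le_antisymm ?_ (hm A B hA hB (by
    rw [Set.sdiff_eq_empty.mpr hBA]; exact Set.finite_empty))⟩
  apply le_of_forall_pos_le_add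
  intro ε hε
  obtain ⟨m, hmε⟩ := exists_nat_one_div_lt hε
  have hfin : (B \ (T m).1).Finite := (hAT m).subset (Set.sdiff_subset_sdiff_left hBA)
  have hinf : (B ∩ (T m).1).Infinite := by
    intro hc
    apply hB
    rw [← Set.inter_union_sdiff B (T m).1]
    exact hc.union hfin
  have h1 : Φ B ≤ Φ (B ∩ (T m).1) := hm _ _ hB hinf (by
    rw [Set.sdiff_eq_empty.mpr Set.inter_subset_left]; exact Set.finite_empty)
  have h2 := hn2 m (T m) (B ∩ (T m).1) Set.inter_subset_right hinf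
  rw [← hT] at h2
  have h3 : Φ (T (m + 1)).1 ≤ Φ A := hm _ _ (T (m + 1)).2 hA (hAT (m + 1))
  linarith

/-! ### The functional `S` -/

theorem abs_re_le {f : E →L[𝕜] 𝕜} (hf : ‖f‖ ≤ 1) {x : E} (hx : ‖x‖ ≤ 1) :
    |RCLike.re (f x)| ≤ 1 := by
  refine (RCLike.abs_re_le_norm _).trans ((f.le_opNorm x).trans ?_)
  calc ‖f‖ * ‖x‖ ≤ 1 * 1 := mul_le_mul hf hx (norm_nonneg _) zero_le_one
    _ = 1 := one_mul 1

/-- The James/Simons functional. -/
noncomputable def P (F : ℕ → E →L[𝕜] 𝕜) (u : E →L[𝕜] 𝕜) (A : Set ℕ) (x : E) : ℝ :=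
  RCLike.re (u x) - limsup (fun n => RCLike.re (F n x)) (trc A)

/-- The James/Simons functional. -/
noncomputable def S (F : ℕ → E →L[𝕜] 𝕜) (u : E →L[𝕜] 𝕜) (A : Set ℕ) : ℝ :=
  ⨆ x : Metric.closedBall (0 : E) 1, P F u A x

section SL

variable {F : ℕ → E →L[𝕜] 𝕜} {A B : Set ℕ}

theorem re_le_norm (u : E →L[𝕜] 𝕜) {x : E} (hx : ‖x‖ ≤ 1) : RCLike.re (u x) ≤ ‖u‖ := by
  refine (le_abs_self _).trans ((RCLike.abs_re_le_norm _).trans ((u.le_opNorm x).trans ?_))
  calc ‖u‖ * ‖x‖ ≤ ‖u‖ * 1 := by gcongr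
    _ = ‖u‖ := mul_one _

theorem P_le (hF : ∀ n, ‖F n‖ ≤ 1) (hA : A.Infinite) (u : E →L[𝕜] 𝕜) {x : E} (hx : ‖x‖ ≤ 1) :
    P F u A x ≤ ‖u‖ + 1 := by
  have h1 := re_le_norm u hx
  have h2 : -1 ≤ limsup (fun n => RCLike.re (F n x)) (trc A) :=
    le_ls (fun n => abs_re_le (hF n) hx) hA
      (Eventually.of_forall fun n => (abs_le.mp (abs_re_le (hF n) hx)).1)
  unfold P
  linarith

theorem bddS (hF : ∀ n, ‖F n‖ ≤ 1) (hA : A.Infinite) (u : E →L[𝕜] 𝕜) :
    BddAbove (range fun x : Metric.closedBall (0 : E) 1 => P F u A x) := by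
  refine ⟨‖u‖ + 1, ?_⟩
  rintro _ ⟨x, rfl⟩
  exact P_le hF hA u (mem_closedBall_zero_iff.mp x.2)

theorem le_S (hF : ∀ n, ‖F n‖ ≤ 1) (hA : A.Infinite) (u : E →L[𝕜] 𝕜) {x : E} (hx : ‖x‖ ≤ 1) :
    P F u A x ≤ S F u A :=
  le_ciSup (bddS hF hA u) (⟨x, by simpa using hx⟩ : Metric.closedBall (0 : E) 1)

theorem S_le {c : ℝ} (u : E →L[𝕜] 𝕜) (h : ∀ x : E, ‖x‖ ≤ 1 → P F u A x ≤ c) :
    S F u A ≤ c := by
  have : Nonempty (Metric.closedBall (0 : E) 1) := ⟨⟨0, by simp⟩⟩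
  exact ciSup_le fun x => h x (mem_closedBall_zero_iff.mp x.2)

theorem S_nonneg (hF : ∀ n, ‖F n‖ ≤ 1) (hA : A.Infinite) (u : E →L[𝕜] 𝕜) : 0 ≤ S F u A := by
  have h := le_S hF hA u (x := 0) (by simp)
  have := L_neBot hA
  simpa [P] using h

theorem S_lip (hF : ∀ n, ‖F n‖ ≤ 1) (hA : A.Infinite) (u v : E →L[𝕜] 𝕜) :
    S F u A ≤ S F v A + ‖u - v‖ := by
  refine S_le u fun x hx => ?_
  have h1 := le_S hF hA v hx
  have h2 := re_le_norm (u - v) hx
  simp only [P, sub_apply, map_sub] at *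
  linarith

theorem S_mono (hF : ∀ n, ‖F n‖ ≤ 1) (hB : B.Infinite) (h : (B \ A).Finite)
    (u : E →L[𝕜] 𝕜) : S F u A ≤ S F u B := by
  refine S_le u fun x hx => ?_
  have h1 := le_S hF hB u hx
  have h2 := ls_mono (fun n => abs_re_le (hF n) hx) hB h
  simp only [P] at *
  linarith

theorem S_bound (hF : ∀ n, ‖F n‖ ≤ 1) (hA : A.Infinite) (u : E →L[𝕜] 𝕜) : S F u A ≤ ‖u‖ + 1 :=
  S_le u fun _ hx => P_le hF hA u hx

theorem exists_stable_S (hF : ∀ n, ‖F n‖ ≤ 1) :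
    ∃ A : Set ℕ, A.Infinite ∧ ∀ u ∈ convexHull ℝ (range F), ∀ B, B ⊆ A → B.Infinite →
      S F u B = S F u A := by
  have hsep : TopologicalSpace.IsSeparable (convexHull ℝ (range F)) := by
    have h1 : TopologicalSpace.IsSeparable (range F) := (countable_range F).isSeparable
    have h2 : TopologicalSpace.IsSeparable
      (Submodule.span ℝ (range F) : Set (E →L[𝕜] 𝕜)) := h1.span
    exact h2.mono (convexHull_min Submodule.subset_span (Submodule.convex _))
  obtain ⟨D, hDsub, hDc, hDd⟩ := hsep.exists_countable_dense_subset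
  have hDne : D.Nonempty := by
    rcases D.eq_empty_or_nonempty with h | h
    · have h0 : F 0 ∈ closure D := hDd (subset_convexHull ℝ _ (mem_range_self 0))
      rw [h] at h0
      simp at h0
    · exact h
  obtain ⟨v, hv⟩ := hDc.exists_eq_range hDne
  have hvn : ∀ i, ‖v i‖ ≤ 1 := by
    intro i
    have h1 : v i ∈ convexHull ℝ (range F) := hDsub (hv ▸ mem_range_self i)
    have h2 : convexHull ℝ (range F) ⊆ Metric.closedBall (0 : E →L[𝕜] 𝕜) 1 :=
      convexHull_min (by rintro _ ⟨n, rfl⟩; simpa using hF n) (convex_closedBall _ _)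
    simpa using h2 h1
  have hgeo : Summable fun i : ℕ => (1 / 2 : ℝ) ^ i * 2 := summable_geometric_two.mul_right 2
  have hsumm : ∀ A : Set ℕ, A.Infinite → Summable fun i => (1 / 2 : ℝ) ^ i * S F (v i) A := by
    intro A hA
    refine Summable.of_nonneg_of_le (fun i => mul_nonneg (by positivity) (S_nonneg hF hA _))
      (fun i => ?_) hgeo
    have := S_bound hF hA (v i)
    have := hvn i
    gcongr
    linarith
  obtain ⟨A, hA, hstab⟩ := exists_stable (fun A => ∑' i, (1 / 2 : ℝ) ^ i * S F (v i) A)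
    (∑' i : ℕ, (1 / 2 : ℝ) ^ i * 2) (by
      intro A hA
      refine (hsumm A hA).tsum_le_tsum (fun i => ?_) hgeo
      have := S_bound hF hA (v i)
      have := hvn i
      gcongr
      linarith) (by
      intro A B hA hB hBA
      refine (hsumm A hA).tsum_le_tsum (fun i => ?_) (hsumm B hB)
      have := S_mono hF hB hBA (v i)
      gcongr)
  refine ⟨A, hA, ?_⟩
  have hstab' : ∀ i, ∀ B, B ⊆ A → B.Infinite → S F (v i) B = S F (v i) A := by
    intro i B hBA hB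
    have hfin : (B \ A).Finite := by rw [Set.sdiff_eq_empty.mpr hBA]; exact Set.finite_empty
    refine le_antisymm ?_ (S_mono hF hB hfin _)
    by_contra hlt
    rw [not_le] at hlt
    have h1 := hstab B hBA hB
    have h2 : ∑' i, (1 / 2 : ℝ) ^ i * S F (v i) A < ∑' i, (1 / 2 : ℝ) ^ i * S F (v i) B := by
      refine Summable.tsum_lt_tsum (i := i) (fun j => ?_) ?_ (hsumm A hA) (hsumm B hB)
      · have := S_mono hF hB hfin (v j)
        gcongr
      · gcongr
    linarith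
  intro u hu B hBA hB
  have hu' : u ∈ closure D := hDd hu
  apply eq_of_forall_dist_le
  intro ε hε
  obtain ⟨d, hd, hdu⟩ := Metric.mem_closure_iff.mp hu' (ε / 2) (half_pos hε)
  rw [hv] at hd
  obtain ⟨i, rfl⟩ := hd
  rw [dist_eq_norm] at hdu
  have h1 := S_lip hF hB u (v i)
  have h2 := S_lip hF hB (v i) u
  have h3 := S_lip hF hA u (v i)
  have h4 := S_lip hF hA (v i) u
  rw [norm_sub_rev (v i) u] at h2 h4
  have h5 := hstab' i B hBA hB
  rw [Real.dist_eq, abs_le]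
  constructor <;> linarith

theorem liminf_stable (hF : ∀ n, ‖F n‖ ≤ 1) (hA : A.Infinite) {u : E →L[𝕜] 𝕜}
    (hst : ∀ B, B ⊆ A → B.Infinite → S F u B = S F u A) {x : E} (hx : ‖x‖ ≤ 1) :
    RCLike.re (u x) - liminf (fun n => RCLike.re (F n x)) (trc A) ≤ S F u A := by
  have ha : ∀ n, |RCLike.re (F n x)| ≤ 1 := fun n => abs_re_le (hF n) hx
  apply le_of_forall_pos_le_add
  intro ε hε
  set l := liminf (fun n => RCLike.re (F n x)) (trc A) with hl
  let B : Set ℕ := {n | n ∈ A ∧ RCLike.re (F n x) < l + ε}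
  have hB : B.Infinite := by
    intro hc
    obtain ⟨M, hM⟩ := hc.bddAbove
    have h1 : ∀ᶠ n in trc A, l + ε ≤ RCLike.re (F n x) := by
      rw [eventually_L]
      refine ⟨M + 1, fun n hn hMn => ?_⟩
      by_contra hlt
      rw [not_le] at hlt
      have := hM ⟨hn, hlt⟩
      omega
    have h2 := le_li ha hA h1
    linarith
  have h1 : limsup (fun n => RCLike.re (F n x)) (trc B) ≤ l + ε := by
    apply ls_le ha hB
    rw [eventually_L]
    exact ⟨0, fun n hn _ => hn.2.le⟩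
  have h2 := le_S hF hB u hx
  rw [hst B (fun n hn => hn.1) hB] at h2
  unfold P at h2
  linarith

end SL

/-! ### The weights `b m = 1 / (m + 1)!` and a numerical lemma -/

/-- The weights. -/
noncomputable def b (m : ℕ) : ℝ := (((m + 1).factorial : ℕ) : ℝ)⁻¹

theorem b_pos (m : ℕ) : 0 < b m := by
  unfold b
  have : (0 : ℝ) < (((m + 1).factorial : ℕ) : ℝ) := by exact_mod_cast (m + 1).factorial_pos
  positivity

theorem b_zero : b 0 = 1 := by simp [b]

theorem b_succ (m : ℕ) : b m = ((m : ℝ) + 2) * b (m + 1) := by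
  unfold b
  rw [Nat.factorial_succ (m + 1)]
  have h : (0 : ℝ) < (((m + 1).factorial : ℕ) : ℝ) := by exact_mod_cast (m + 1).factorial_pos
  push_cast
  field_simp
  ring

theorem b_succ_lt (m : ℕ) : b (m + 1) < b m := by
  have h1 := b_pos (m + 1)
  rw [b_succ m]
  nlinarith [(Nat.cast_nonneg m : (0 : ℝ) ≤ m)]

theorem b_le (m : ℕ) : b m ≤ 1 / ((m : ℝ) + 1) := by
  unfold b
  rw [inv_eq_one_div]
  have h : (m : ℝ) + 1 ≤ (((m + 1).factorial : ℕ) : ℝ) := by
    exact_mod_cast Nat.self_le_factorial (m + 1)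
  gcongr

theorem real_step {s δ : ℝ} {σ a : ℕ → ℝ} (hδ : 0 < δ) (h0 : σ 0 = 0)
    (hσ : ∀ m, σ (m + 1) = σ m + (b m - b (m + 1)) * a m) (hs : |s| ≤ 1)
    (hD : ∀ m, |s - σ m| ≤ b m)
    (ha : ∀ m, σ m + b m * a m ≤ s + δ * (1 / 2) ^ (m + 2) * b (m + 1)) (m : ℕ) :
    s - δ / 2 - (2 + δ) / ((m : ℝ) + 1) ≤ a m := by
  have claim : ∀ m : ℕ, (s - δ * (1 / 2 - (1 / 2) ^ (m + 1))) * b m ≤ s - σ m := by
    intro m
    induction m with
    | zero => rw [h0, b_zero]; norm_num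
    | succ m ih =>
      have h1 := b_pos (m + 1)
      have h2 := ha m
      rw [hσ m]
      rw [b_succ m] at h2 ih ⊢
      have hm : (0 : ℝ) ≤ m := Nat.cast_nonneg m
      have hp : (0 : ℝ) < (1 / 2) ^ (m + 2) := by positivity
      have hpp : ((1 : ℝ) / 2) ^ (m + 1) = 2 * (1 / 2) ^ (m + 2) := by ring
      have hpp' : ((1 : ℝ) / 2) ^ (m + 1 + 1) = (1 / 2) ^ (m + 2) := by ring
      rw [hpp] at ih
      rw [hpp']
      generalize ((1 : ℝ) / 2) ^ (m + 2) = q at *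
      generalize b (m + 1) = c at *
      have key : ((m : ℝ) + 2) * ((s - δ * (1 / 2 - q)) * c) ≤
          ((m : ℝ) + 2) * (s - (σ m + (((m : ℝ) + 2) * c - c) * a m)) := by
        have h3 := mul_le_mul_of_nonneg_left h2 (by linarith : (0 : ℝ) ≤ (m : ℝ) + 1)
        have h4 : 0 < δ * q * c := by positivity
        nlinarith
      exact le_of_mul_le_mul_left key (by linarith)
  have h1 := b_pos (m + 1)
  have hm : (0 : ℝ) ≤ m := Nat.cast_nonneg m
  have h2 := claim m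
  have h3 := (abs_le.mp (hD (m + 1))).2
  rw [hσ m] at h3
  rw [b_succ m] at h2 h3
  have hq : (0 : ℝ) < (1 / 2) ^ (m + 1) := by positivity
  generalize ((1 : ℝ) / 2) ^ (m + 1) = q at *
  generalize b (m + 1) = c at *
  have h5 := (abs_le.mp hs).1
  have h4 : (s - δ / 2) * ((m : ℝ) + 2) - 1 ≤ ((m : ℝ) + 1) * a m := by
    have h6 : ((s - δ / 2) * ((m : ℝ) + 2) - 1) * c ≤ (((m : ℝ) + 1) * a m) * c := by
      have h7 : 0 < δ * q * ((m : ℝ) + 2) * c := by positivity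
      nlinarith
    exact le_of_mul_le_mul_right h6 h1
  have h8 : (s - δ / 2 - (2 + δ) / ((m : ℝ) + 1)) * ((m : ℝ) + 1) ≤ a m * ((m : ℝ) + 1) := by
    have h9 : (s - δ / 2 - (2 + δ) / ((m : ℝ) + 1)) * ((m : ℝ) + 1) =
      (s - δ / 2) * ((m : ℝ) + 1) - (2 + δ) := by
      have : (m : ℝ) + 1 ≠ 0 := by positivity
      field_simp
    rw [h9]
    nlinarith
  exact le_of_mul_le_mul_right h8 (by linarith)

/-! ### The Simons/James step -/

/-- The convex hulls of the tails. -/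
def K (F : ℕ → E →L[𝕜] 𝕜) (A : Set ℕ) (m : ℕ) : Set (E →L[𝕜] 𝕜) :=
  convexHull ℝ (F '' {n | n ∈ A ∧ m ≤ n})

theorem reApply_isLinear (x : E) : IsLinearMap ℝ (fun f : E →L[𝕜] 𝕜 => RCLike.re (f x)) where
  map_add f g := by simp
  map_smul c f := by simp [RCLike.smul_re]

theorem K_re_le {F : ℕ → E →L[𝕜] 𝕜} {A : Set ℕ} {m : ℕ} {x : E} {c : ℝ}
    (h : ∀ n ∈ A, m ≤ n → RCLike.re (F n x) ≤ c) {g : E →L[𝕜] 𝕜} (hg : g ∈ K F A m) :
    RCLike.re (g x) ≤ c := by
  have h1 : K F A m ⊆ {f | RCLike.re (f x) ≤ c} := by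
    refine convexHull_min ?_ (convex_halfSpace_le (reApply_isLinear x) c)
    rintro _ ⟨n, ⟨hn, hmn⟩, rfl⟩
    exact h n hn hmn
  exact h1 hg

theorem K_le_re {F : ℕ → E →L[𝕜] 𝕜} {A : Set ℕ} {m : ℕ} {x : E} {c : ℝ}
    (h : ∀ n ∈ A, m ≤ n → c ≤ RCLike.re (F n x)) {g : E →L[𝕜] 𝕜} (hg : g ∈ K F A m) :
    c ≤ RCLike.re (g x) := by
  have h1 : K F A m ⊆ {f | c ≤ RCLike.re (f x)} := by
    refine convexHull_min ?_ (convex_halfSpace_ge (reApply_isLinear x) c)
    rintro _ ⟨n, ⟨hn, hmn⟩, rfl⟩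
    exact h n hn hmn
  exact h1 hg

theorem simons (hNA : ∀ f : E →L[𝕜] 𝕜, ∃ x, ‖x‖ = 1 ∧ ‖f x‖ = ‖f‖)
    {F : ℕ → E →L[𝕜] 𝕜} (hF : ∀ n, ‖F n‖ ≤ 1) {A : Set ℕ} (hA : A.Infinite)
    (hst : ∀ u ∈ convexHull ℝ (range F), ∀ B, B ⊆ A → B.Infinite → S F u B = S F u A)
    {θ : ℝ} (hθ : 0 < θ) : ∃ u ∈ convexHull ℝ (range F), S F u A < θ := by
  by_contra hcon
  push Not at hcon
  -- basic facts about the sets `K`
  have hKne : ∀ m, (K F A m).Nonempty := by
    intro m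
    obtain ⟨n, hn, hmn⟩ := hA.exists_gt m
    exact ⟨F n, subset_convexHull ℝ _ ⟨n, ⟨hn, hmn.le⟩, rfl⟩⟩
  have hKanti : ∀ {m n}, m ≤ n → K F A n ⊆ K F A m := by
    intro m n hmn
    apply convexHull_mono
    apply Set.image_mono
    rintro k ⟨hk, hnk⟩
    exact ⟨hk, hmn.trans hnk⟩
  have hKsub : ∀ m, K F A m ⊆ convexHull ℝ (range F) := by
    intro m
    apply convexHull_mono
    exact Set.image_subset_range _ _
  have hKconv : ∀ m, Convex ℝ (K F A m) := fun m => convex_convexHull ℝ _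
  have hKball : ∀ m, ∀ g ∈ K F A m, ‖g‖ ≤ 1 := by
    intro m g hg
    have h2 : convexHull ℝ (range F) ⊆ Metric.closedBall (0 : E →L[𝕜] 𝕜) 1 :=
      convexHull_min (by rintro _ ⟨n, rfl⟩; simpa using hF n) (convex_closedBall _ _)
    simpa using h2 (hKsub m hg)
  -- the choice of near minimisers
  have hch : ∀ (m : ℕ) (h : E →L[𝕜] 𝕜), ∃ g ∈ K F A m, ∀ g' ∈ K F A m,
      S F (h + b m • g) A ≤ S F (h + b m • g') A + (θ / 2) * (1 / 2) ^ (m + 2) * b (m + 1) := by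
    intro m h
    have hε : 0 < (θ / 2) * (1 / 2) ^ (m + 2) * b (m + 1) := by
      have := b_pos (m + 1)
      positivity
    have hne : ((fun g => S F (h + b m • g) A) '' K F A m).Nonempty := (hKne m).image _
    have hbd : BddBelow ((fun g => S F (h + b m • g) A) '' K F A m) := by
      refine ⟨0, ?_⟩
      rintro _ ⟨g, -, rfl⟩
      exact S_nonneg hF hA _
    obtain ⟨_, ⟨g, hg, rfl⟩, hlt⟩ := exists_lt_of_csInf_lt hne (lt_add_of_pos_right _ hε)
    refine ⟨g, hg, fun g' hg' => ?_⟩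
    have h2 := csInf_le hbd ⟨g', hg', rfl⟩
    simp only at hlt h2
    linarith
  choose G hG1 hG2 using hch
  obtain ⟨h, hh0, hh⟩ : ∃ h : ℕ → (E →L[𝕜] 𝕜), h 0 = 0 ∧
      ∀ m, h (m + 1) = h m + (b m - b (m + 1)) • G m (h m) :=
    ⟨fun n => Nat.rec 0 (fun m hm => hm + (b m - b (m + 1)) • G m hm) n, rfl, fun m => rfl⟩
  obtain ⟨g, hg⟩ : ∃ g : ℕ → (E →L[𝕜] 𝕜), ∀ m, g m = G m (h m) := ⟨_, fun m => rfl⟩
  have hgK : ∀ m, g m ∈ K F A m := fun m => by rw [hg]; exact hG1 m (h m)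
  have hgmin : ∀ m, ∀ g' ∈ K F A m, S F (h m + b m • g m) A ≤
      S F (h m + b m • g') A + (θ / 2) * (1 / 2) ^ (m + 2) * b (m + 1) := fun m g' hg' => by
    rw [hg]; exact hG2 m (h m) g' hg'
  have hh' : ∀ m, h (m + 1) = h m + (b m - b (m + 1)) • g m := fun m => by rw [hh, hg]
  -- combination property
  have hcomb : ∀ m M, m ≤ M → ∀ g' ∈ K F A m, ∃ g'' ∈ K F A m,
      h M + b M • g' = h m + b m • g'' := by
    intro m M hmM
    induction M, hmM using Nat.le_induction with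
    | base => exact fun g' hg' => ⟨g', hg', rfl⟩
    | succ M hmM ih =>
      intro g' hg'
      have hbM := b_pos M
      have hbM' := b_pos (M + 1)
      have hlt := b_succ_lt M
      have hmem : ((b M - b (M + 1)) / b M) • g M + (b (M + 1) / b M) • g' ∈ K F A m := by
        apply hKconv m (hKanti hmM (hgK M)) hg'
        · exact div_nonneg (by linarith) hbM.le
        · positivity
        · field_simp
          ring
      obtain ⟨g'', hg'', heq⟩ := ih _ hmem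
      refine ⟨g'', hg'', ?_⟩
      rw [← heq, hh' M, smul_add, smul_smul, smul_smul, mul_div_cancel₀ _ hbM.ne',
        mul_div_cancel₀ _ hbM.ne', add_assoc]
  -- norm bounds
  have hdiff : ∀ m M, m ≤ M → ‖h M - h m‖ ≤ b m - b M := by
    intro m M hmM
    induction M, hmM using Nat.le_induction with
    | base => simp
    | succ M hmM ih =>
      have hlt := b_succ_lt M
      have h1 : h (M + 1) - h m = (h M - h m) + (b M - b (M + 1)) • g M := by
        rw [hh' M]; abel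
      rw [h1]
      refine (norm_add_le _ _).trans ?_
      have h2 : ‖(b M - b (M + 1)) • g M‖ ≤ b M - b (M + 1) := by
        rw [norm_smul, Real.norm_eq_abs, abs_of_pos (by linarith)]
        have := hKball _ _ (hgK M)
        nlinarith
      linarith
  have hb0 : Tendsto b atTop (𝓝 0) := by
    refine squeeze_zero (fun m => (b_pos m).le) b_le ?_
    exact tendsto_one_div_add_atTop_nhds_zero_nat
  have hdist : ∀ m M, m ≤ M → dist (h m) (h M) ≤ b m := by
    intro m M hmM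
    rw [dist_comm, dist_eq_norm]
    have := hdiff m M hmM
    have := b_pos M
    linarith
  have hcau : CauchySeq h := cauchySeq_of_le_tendsto_0' b hdist hb0
  obtain ⟨hl, hlim⟩ := cauchySeq_tendsto_of_complete hcau
  have hhl : ∀ m, ‖hl - h m‖ ≤ b m := by
    intro m
    have h1 : Tendsto (fun M => ‖h M - h m‖) atTop (𝓝 ‖hl - h m‖) := (hlim.sub_const _).norm
    refine le_of_tendsto h1 ?_
    filter_upwards [eventually_ge_atTop m] with M hM
    have := hdiff m M hM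
    have := b_pos M
    linarith
  have hul : ∀ M, ‖(h M + b M • g M) - hl‖ ≤ 2 * b M := by
    intro M
    have h1 : (h M + b M • g M) - hl = b M • g M - (hl - h M) := by abel
    rw [h1]
    refine (norm_sub_le _ _).trans ?_
    have h2 : ‖b M • g M‖ ≤ b M := by
      rw [norm_smul, Real.norm_eq_abs, abs_of_pos (b_pos M)]
      have := hKball _ _ (hgK M)
      nlinarith [b_pos M]
    have := hhl M
    linarith
  have hlim0 : ∀ c : ℝ, Tendsto (fun M => c + 2 * b M) atTop (𝓝 c) := by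
    intro c
    simpa using (hb0.const_mul 2).const_add c
  -- `S (u m) ≤ S hl + ε m`
  have hSu : ∀ m, S F (h m + b m • g m) A ≤
      S F hl A + (θ / 2) * (1 / 2) ^ (m + 2) * b (m + 1) := by
    intro m
    refine ge_of_tendsto (hlim0 _) ?_
    filter_upwards [eventually_ge_atTop m] with M hM
    obtain ⟨g'', hg'', heq⟩ := hcomb m M hM (g M) (hKanti hM (hgK M))
    have h1 := hgmin m g'' hg''
    rw [← heq] at h1
    have h2 := S_lip hF hA (h M + b M • g M) hl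
    have h3 := hul M
    linarith
  have humem : ∀ m, h m + b m • g m ∈ convexHull ℝ (range F) := by
    intro m
    obtain ⟨g'', hg'', heq⟩ := hcomb 0 m (Nat.zero_le m) (g m) (hKanti (Nat.zero_le m) (hgK m))
    rw [heq, hh0, b_zero, one_smul, zero_add]
    exact hKsub 0 hg''
  have hSl : θ ≤ S F hl A := by
    refine ge_of_tendsto (hlim0 _) (Eventually.of_forall fun M => ?_)
    have h1 := hcon _ (humem M)
    have h2 := S_lip hF hA (h M + b M • g M) hl
    have h3 := hul M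
    linarith
  -- the ultralimit
  obtain ⟨w, -, hw⟩ := exists_ultralimit (hyperfilter ℕ) g 1 (fun n => hKball _ _ (hgK n))
  have hUtop : (hyperfilter ℕ : Filter ℕ) ≤ atTop := Nat.hyperfilter_le_atTop
  have hwre : ∀ x, Tendsto (fun n => RCLike.re (g n x)) (hyperfilter ℕ : Filter ℕ)
      (𝓝 (RCLike.re (w x))) := fun x =>
    (RCLike.continuous_re.tendsto _).comp (hw x)
  have hwle : ∀ x : E, ‖x‖ ≤ 1 →
      RCLike.re (w x) ≤ limsup (fun n => RCLike.re (F n x)) (trc A) := by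
    intro x hx
    apply le_of_forall_gt
    intro c hc
    obtain ⟨d, hd1, hd2⟩ := exists_between hc
    have h1 := ev_lt (fun n => abs_re_le (hF n) hx) hd1
    rw [eventually_L] at h1
    obtain ⟨N, hN⟩ := h1
    refine lt_of_le_of_lt ?_ hd2
    refine le_of_tendsto (hwre x) (hUtop ?_)
    filter_upwards [eventually_ge_atTop N] with m hm
    exact K_re_le (fun n hn hmn => (hN n hn (hm.trans hmn)).le) (hgK m)
  have hlew : ∀ x : E, ‖x‖ ≤ 1 →
      liminf (fun n => RCLike.re (F n x)) (trc A) ≤ RCLike.re (w x) := by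
    intro x hx
    apply le_of_forall_lt
    intro c hc
    obtain ⟨d, hd1, hd2⟩ := exists_between hc
    have h1 := ev_gt (fun n => abs_re_le (hF n) hx) hd2
    rw [eventually_L] at h1
    obtain ⟨N, hN⟩ := h1
    refine lt_of_lt_of_le hd1 ?_
    refine ge_of_tendsto (hwre x) (hUtop ?_)
    filter_upwards [eventually_ge_atTop N] with m hm
    exact K_le_re (fun n hn hmn => (hN n hn (hm.trans hmn)).le) (hgK m)
  -- `S hl ≤ ‖hl - w‖`
  have hSle : S F hl A ≤ ‖hl - w‖ := by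
    refine S_le hl fun x hx => ?_
    have h1 := hwle x hx
    have h2 := re_le_norm (hl - w) hx
    simp only [sub_apply, map_sub] at h2
    unfold P
    linarith
  -- the point where the norm is attained
  obtain ⟨x, hx1, hx2⟩ := hNA (hl - w)
  obtain ⟨c, hc1, hc2⟩ := RCLike.exists_norm_eq_mul_self ((hl - w) x)
  have hx0 : ‖c • x‖ ≤ 1 := by rw [norm_smul, hc1, hx1, one_mul]
  have hre : RCLike.re ((hl - w) (c • x)) = ‖hl - w‖ := by
    rw [map_smul, smul_eq_mul, ← hc2, RCLike.ofReal_re, hx2]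
  generalize hz : c • x = z at hx0 hre
  simp only [sub_apply, map_sub] at hre
  have hst1 := real_step (s := RCLike.re (hl z)) (δ := θ / 2)
    (σ := fun m => RCLike.re (h m z)) (a := fun m => RCLike.re (g m z)) (by positivity)
    (by simp [hh0]) (by
      intro m
      simp only [hh' m, add_apply, smul_apply, map_add, RCLike.smul_re]) (by
      refine abs_re_le ?_ hx0
      have h1 := hhl 0
      rw [hh0, sub_zero, b_zero] at h1
      exact h1) (by
      intro m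
      have h1 := re_le_norm (hl - h m) hx0
      have h2 := re_le_norm (h m - hl) hx0
      have h3 := hhl m
      rw [norm_sub_rev] at h2
      simp only [sub_apply, map_sub] at h1 h2
      rw [abs_le]
      constructor <;> linarith) (by
      intro m
      have h1 := liminf_stable hF hA (hst _ (humem m)) hx0
      have h2 := hSu m
      have h3 := hlew z hx0
      simp only [add_apply, smul_apply, map_add, RCLike.smul_re] at h1
      have h4 : b m * RCLike.re ((g m) z) = b m * RCLike.re ((g m) z) := rfl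
      linarith)
  have hW : RCLike.re (hl z) - θ / 2 / 2 ≤ RCLike.re (w z) := by
    have h1 : Tendsto (fun m : ℕ => RCLike.re (hl z) - θ / 2 / 2 - (2 + θ / 2) / ((m : ℝ) + 1))
        (hyperfilter ℕ : Filter ℕ) (𝓝 (RCLike.re (hl z) - θ / 2 / 2)) := by
      have h2 : Tendsto (fun m : ℕ => RCLike.re (hl z) - θ / 2 / 2 - (2 + θ / 2) / ((m : ℝ) + 1))
        atTop (𝓝 (RCLike.re (hl z) - θ / 2 / 2 - (2 + θ / 2) * 0)) := by
        have h3 := (tendsto_one_div_add_atTop_nhds_zero_nat (𝕜 := ℝ)).const_mul (2 + θ / 2)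
        have h4 := h3.const_sub (RCLike.re (hl z) - θ / 2 / 2)
        refine h4.congr fun m => ?_
        ring
      rw [mul_zero, sub_zero] at h2
      exact h2.mono_left hUtop
    exact le_of_tendsto_of_tendsto' h1 (hwre z) hst1
  linarith

/-! ### Weak* convergent subsequences and weak* null sequences -/

theorem re_tendsto_ball (hNA : ∀ f : E →L[𝕜] 𝕜, ∃ x, ‖x‖ = 1 ∧ ‖f x‖ = ‖f‖)
    {F : ℕ → E →L[𝕜] 𝕜} (hF : ∀ n, ‖F n‖ ≤ 1) {A : Set ℕ} (hA : A.Infinite)
    (hst : ∀ u ∈ convexHull ℝ (range F), ∀ B, B ⊆ A → B.Infinite → S F u B = S F u A)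
    {x : E} (hx : ‖x‖ ≤ 1) :
    ∃ c, Tendsto (fun n => RCLike.re (F n x)) (trc A) (𝓝 c) := by
  have ha : ∀ n, |RCLike.re (F n x)| ≤ 1 := fun n => abs_re_le (hF n) hx
  refine ⟨limsup (fun n => RCLike.re (F n x)) (trc A), ?_⟩
  refine tendsto_of_le_liminf_of_limsup_le ?_ le_rfl (bdd1 ha _) (bdd2 ha _)
  apply le_of_forall_pos_le_add
  intro ε hε
  obtain ⟨u, hu, huS⟩ := simons hNA hF hA hst (half_pos hε)
  have h1 := liminf_stable hF hA (hst u hu) hx
  have h2 := liminf_stable hF hA (hst u hu) (x := -x) (by rwa [norm_neg])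
  simp only [map_neg] at h2
  rw [li_neg ha hA] at h2
  linarith

theorem re_tendsto_all (hNA : ∀ f : E →L[𝕜] 𝕜, ∃ x, ‖x‖ = 1 ∧ ‖f x‖ = ‖f‖)
    {F : ℕ → E →L[𝕜] 𝕜} (hF : ∀ n, ‖F n‖ ≤ 1) {A : Set ℕ} (hA : A.Infinite)
    (hst : ∀ u ∈ convexHull ℝ (range F), ∀ B, B ⊆ A → B.Infinite → S F u B = S F u A)
    (x : E) : ∃ c, Tendsto (fun n => RCLike.re (F n x)) (trc A) (𝓝 c) := by
  have hr : 0 < ‖x‖ + 1 := by positivity
  have hx : ‖(((‖x‖ + 1 : ℝ)⁻¹ : ℝ) : 𝕜) • x‖ ≤ 1 := by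
    rw [norm_smul, RCLike.norm_ofReal, abs_of_pos (by positivity), inv_mul_le_iff₀ hr]
    linarith
  obtain ⟨c, hc⟩ := re_tendsto_ball hNA hF hA hst hx
  refine ⟨(‖x‖ + 1) * c, (hc.const_mul (‖x‖ + 1)).congr fun n => ?_⟩
  rw [map_smul, smul_eq_mul, RCLike.re_ofReal_mul, mul_inv_cancel_left₀ hr.ne']

theorem exists_subseq_tendsto (hNA : ∀ f : E →L[𝕜] 𝕜, ∃ x, ‖x‖ = 1 ∧ ‖f x‖ = ‖f‖)
    {F : ℕ → E →L[𝕜] 𝕜} (hF : ∀ n, ‖F n‖ ≤ 1) :
    ∃ φ : ℕ → ℕ, StrictMono φ ∧ ∀ x, ∃ c, Tendsto (fun n => F (φ n) x) atTop (𝓝 c) := by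
  obtain ⟨A, hA, hst⟩ := exists_stable_S hF
  refine ⟨Nat.nth (· ∈ A), Nat.nth_strictMono hA, fun x => ?_⟩
  have hφ : Tendsto (Nat.nth (· ∈ A)) atTop (trc A) := by
    refine tendsto_inf.2 ⟨(Nat.nth_strictMono hA).tendsto_atTop, tendsto_principal.2 ?_⟩
    exact Eventually.of_forall fun n => Nat.nth_mem_of_infinite hA n
  obtain ⟨c, hc⟩ := re_tendsto_all hNA hF hA hst x
  obtain ⟨d, hd⟩ := re_tendsto_all hNA hF hA hst (-(RCLike.I : 𝕜) • x)
  refine ⟨(c : 𝕜) + (d : 𝕜) * RCLike.I, ?_⟩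
  have h1 : Tendsto (fun n => ((RCLike.re (F n x) : ℝ) : 𝕜) +
      ((RCLike.re (F n (-(RCLike.I : 𝕜) • x)) : ℝ) : 𝕜) * RCLike.I) (trc A)
      (𝓝 ((c : 𝕜) + (d : 𝕜) * RCLike.I)) :=
    ((RCLike.continuous_ofReal.tendsto c).comp hc).add
      (((RCLike.continuous_ofReal.tendsto d).comp hd).mul_const _)
  refine (h1.comp hφ).congr fun n => ?_
  simp only [Function.comp_apply]
  have h2 : RCLike.re (F (Nat.nth (· ∈ A) n) (-(RCLike.I : 𝕜) • x)) =
      RCLike.im (F (Nat.nth (· ∈ A) n) x) := by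
    rw [map_smul, smul_eq_mul, neg_mul, map_neg, RCLike.I_mul_re, neg_neg]
  rw [h2, RCLike.re_add_im]

theorem exists_weakStar_null (hNA : ∀ f : E →L[𝕜] 𝕜, ∃ x, ‖x‖ = 1 ∧ ‖f x‖ = ‖f‖)
    (hinf : ¬ FiniteDimensional 𝕜 E) :
    ∃ h : ℕ → (E →L[𝕜] 𝕜), (∀ n, ‖h n‖ = 1) ∧ ∀ x, Tendsto (fun n => h n x) atTop (𝓝 0) := by
  have hinf' : ¬ FiniteDimensional 𝕜 (StrongDual 𝕜 E) := by
    intro hfd
    apply hinf
    have hdd : FiniteDimensional 𝕜 (StrongDual 𝕜 (StrongDual 𝕜 E)) := inferInstance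
    exact FiniteDimensional.of_injective (V₂ := StrongDual 𝕜 (StrongDual 𝕜 E))
      (NormedSpace.inclusionInDoubleDualLi (E := E) 𝕜).toLinearMap
      (NormedSpace.inclusionInDoubleDualLi (E := E) 𝕜).injective
  obtain ⟨R, f, hR, hfR, hfd⟩ := exists_seq_norm_le_one_le_norm_sub hinf'
  have hR0 : 0 < R := by linarith
  have hF : ∀ n, ‖((R⁻¹ : ℝ) : 𝕜) • f n‖ ≤ 1 := by
    intro n
    rw [norm_smul, RCLike.norm_ofReal, abs_of_pos (by positivity), inv_mul_le_iff₀ hR0]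
    simpa using hfR n
  obtain ⟨φ, hφ, hconv⟩ := exists_subseq_tendsto hNA hF
  have hconv' : ∀ x, ∃ c, Tendsto (fun n => f (φ n) x) atTop (𝓝 c) := by
    intro x
    obtain ⟨c, hc⟩ := hconv x
    refine ⟨(R : 𝕜) * c, (hc.const_mul (R : 𝕜)).congr fun n => ?_⟩
    have hRne : (R : 𝕜) ≠ 0 := by exact_mod_cast hR0.ne'
    simp only [smul_apply, smul_eq_mul, RCLike.ofReal_inv]
    rw [mul_inv_cancel_left₀ hRne]
  let G : ℕ → (E →L[𝕜] 𝕜) := fun n => f (φ n) - f (φ (n + 1))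
  have hG1 : ∀ n, 1 ≤ ‖G n‖ := fun n => hfd (hφ (Nat.lt_succ_self n)).ne
  have hG0 : ∀ x, Tendsto (fun n => G n x) atTop (𝓝 0) := by
    intro x
    obtain ⟨c, hc⟩ := hconv' x
    have h1 := hc.sub (hc.comp (tendsto_add_atTop_nat 1))
    rw [sub_self] at h1
    exact h1
  refine ⟨fun n => ((‖G n‖⁻¹ : ℝ) : 𝕜) • G n, fun n => ?_, fun x => ?_⟩
  · have := hG1 n
    rw [norm_smul, RCLike.norm_ofReal, abs_of_pos (by positivity), inv_mul_cancel₀ (by positivity)]
  · refine squeeze_zero_norm (fun n => ?_) (tendsto_zero_iff_norm_tendsto_zero.mp (hG0 x))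
    have h1 := hG1 n
    rw [smul_apply, norm_smul, RCLike.norm_ofReal, abs_of_pos (by positivity)]
    have h2 : ‖G n‖⁻¹ ≤ 1 := inv_le_one_of_one_le₀ h1
    nlinarith [norm_nonneg (G n x)]

end Real

/-! ### Consequences of the weak maximizing property -/

section Final

variable {𝕜 : Type} [RCLike 𝕜] {E : Type u} [NormedAddCommGroup E] [NormedSpace 𝕜 E]

theorem exists_unit_lt {F : Type} [NormedAddCommGroup F] [NormedSpace 𝕜 F] (T : E →L[𝕜] F)
    {r : ℝ} (hr0 : 0 ≤ r) (hr : r < ‖T‖) : ∃ x : E, ‖x‖ = 1 ∧ r < ‖T x‖ := by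
  obtain ⟨x, hx1, hx2⟩ := T.exists_lt_apply_of_lt_opNorm hr
  have hx0 : x ≠ 0 := by
    rintro rfl
    simp at hx2
    linarith
  have hxn : 0 < ‖x‖ := norm_pos_iff.mpr hx0
  refine ⟨((‖x‖⁻¹ : ℝ) : 𝕜) • x, ?_, ?_⟩
  · rw [norm_smul, RCLike.norm_ofReal, abs_of_pos (by positivity), inv_mul_cancel₀ hxn.ne']
  · rw [map_smul, norm_smul, RCLike.norm_ofReal, abs_of_pos (by positivity)]
    have h1 : 1 ≤ ‖x‖⁻¹ := (one_le_inv₀ hxn).mpr hx1.le
    nlinarith [norm_nonneg (T x)]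

theorem NA_of_WMP (hW : WMP 𝕜 E 𝕜) [Nontrivial E] (f : E →L[𝕜] 𝕜) :
    ∃ x, ‖x‖ = 1 ∧ ‖f x‖ = ‖f‖ := by
  by_cases hf : ‖f‖ = 0
  · obtain ⟨x, hx⟩ := exists_ne (0 : E)
    have hxn : 0 < ‖x‖ := norm_pos_iff.mpr hx
    refine ⟨((‖x‖⁻¹ : ℝ) : 𝕜) • x, ?_, ?_⟩
    · rw [norm_smul, RCLike.norm_ofReal, abs_of_pos (by positivity), inv_mul_cancel₀ hxn.ne']
    · rw [norm_eq_zero] at hf
      rw [hf]
      simp
  · have hfp : 0 < ‖f‖ := lt_of_le_of_ne (norm_nonneg _) (Ne.symm hf)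
    apply hW f
    have h1 : ∀ n : ℕ, ∃ x : E, ‖x‖ = 1 ∧ max (‖f‖ - 1 / ((n : ℝ) + 1)) 0 < ‖f x‖ := by
      intro n
      apply exists_unit_lt f (le_max_right _ _)
      have : (0 : ℝ) < 1 / ((n : ℝ) + 1) := Nat.one_div_pos_of_nat
      exact max_lt (by linarith) hfp
    choose x hx1 hx2 using h1
    have hmax : Tendsto (fun n => ‖f (x n)‖) atTop (𝓝 ‖f‖) := by
      have h2 : Tendsto (fun n : ℕ => ‖f‖ - 1 / ((n : ℝ) + 1)) atTop (𝓝 (‖f‖ - 0)) :=
        (tendsto_one_div_add_atTop_nhds_zero_nat (𝕜 := ℝ)).const_sub ‖f‖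
      rw [sub_zero] at h2
      refine tendsto_of_tendsto_of_tendsto_of_le_of_le h2 tendsto_const_nhds (fun n => ?_)
        (fun n => ?_)
      · exact (le_max_left _ _).trans (hx2 n).le
      · simpa [hx1 n] using f.le_opNorm (x n)
    refine ⟨x, ⟨hx1, hmax⟩, fun hwn => ?_⟩
    have h3 := (hwn f).norm
    rw [norm_zero] at h3
    exact hf (tendsto_nhds_unique hmax h3)

/-- The operator into `ℓ_∞` given by a sequence of functionals of norm at most one. -/
noncomputable def toLinf (t : ℕ → E →L[𝕜] 𝕜) (ht : ∀ k, ‖t k‖ ≤ 1) :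
    E →L[𝕜] (BoundedContinuousFunction ℕ 𝕜) :=
  LinearMap.mkContinuous
    { toFun := fun x => BoundedContinuousFunction.ofNormedAddCommGroupDiscrete
        (fun k => t k x) ‖x‖ (fun k => by
          refine ((t k).le_opNorm x).trans ?_
          nlinarith [ht k, norm_nonneg x])
      map_add' := fun x y => by ext k; simp
      map_smul' := fun c x => by ext k; simp } 1 (fun x => by
        rw [one_mul]
        refine (BoundedContinuousFunction.norm_le (norm_nonneg x)).mpr fun k => ?_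
        show ‖t k x‖ ≤ ‖x‖
        refine ((t k).le_opNorm x).trans ?_
        nlinarith [ht k, norm_nonneg x])

theorem toLinf_apply (t : ℕ → E →L[𝕜] 𝕜) (ht : ∀ k, ‖t k‖ ≤ 1) (x : E) (k : ℕ) :
    toLinf t ht x k = t k x := rfl

theorem key (hW : WMP 𝕜 E (BoundedContinuousFunction ℕ 𝕜)) (t : ℕ → E →L[𝕜] 𝕜)
    (ht1 : ∀ k, ‖t k‖ < 1)
    (hc : ∀ x, ‖x‖ = 1 → ∃ c < (1 : ℝ), ∀ᶠ k in atTop, ‖t k x‖ ≤ c)
    (x : ℕ → E) (hx : ∀ j, ‖x j‖ = 1) (hlim : Tendsto (fun j => ‖t j (x j)‖) atTop (𝓝 1)) :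
    WeaklyNull 𝕜 x := by
  by_contra hwn
  let T := toLinf t (fun k => (ht1 k).le)
  have hTx : ∀ y k, T y k = t k y := fun y k => rfl
  have hT1 : ‖T‖ ≤ 1 := LinearMap.mkContinuous_norm_le _ zero_le_one _
  have hle : ∀ y k, ‖t k y‖ ≤ ‖T y‖ := fun y k => by
    rw [← hTx]; exact (T y).norm_coe_le_norm k
  have hTxle : ∀ j, ‖T (x j)‖ ≤ ‖T‖ := fun j => by
    simpa [hx j] using T.le_opNorm (x j)
  have hT2 : 1 ≤ ‖T‖ := le_of_tendsto' hlim fun j => (hle _ _).trans (hTxle j)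
  have hT : ‖T‖ = 1 := le_antisymm hT1 hT2
  have hmax : IsMaximizing T x := by
    refine ⟨hx, ?_⟩
    rw [hT]
    exact tendsto_of_tendsto_of_tendsto_of_le_of_le hlim tendsto_const_nhds
      (fun j => hle _ _) (fun j => (hTxle j).trans hT1)
  obtain ⟨y, hy1, hy2⟩ := hW T ⟨x, hmax, hwn⟩
  rw [hT] at hy2
  obtain ⟨c, hc1, hc2⟩ := hc y hy1
  obtain ⟨N, hN⟩ := eventually_atTop.mp hc2
  -- the maximum over the first `N` terms
  have hfin : ∃ d < (1 : ℝ), ∀ k < N, ‖t k y‖ ≤ d := by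
    clear hN
    induction N with
    | zero => exact ⟨0, zero_lt_one, fun k hk => absurd hk (Nat.not_lt_zero k)⟩
    | succ N ih =>
      obtain ⟨d, hd, hdk⟩ := ih
      refine ⟨max d ‖t N‖, max_lt hd (ht1 N), fun k hk => ?_⟩
      rcases Nat.lt_succ_iff_lt_or_eq.mp hk with h | h
      · exact (hdk k h).trans (le_max_left _ _)
      · rw [h]
        refine le_trans ?_ (le_max_right _ _)
        simpa [hy1] using (t N).le_opNorm y
  obtain ⟨d, hd1, hd2⟩ := hfin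
  have h1 : ‖T y‖ ≤ max (max c d) 0 := by
    refine (BoundedContinuousFunction.norm_le (le_max_right _ _)).mpr fun k => ?_
    rw [hTx]
    rcases lt_or_ge k N with hk | hk
    · exact (hd2 k hk).trans ((le_max_right _ _).trans (le_max_left _ _))
    · exact (hN k hk).trans ((le_max_left _ _).trans (le_max_left _ _))
  rw [hy2] at h1
  have h2 : max (max c d) 0 < 1 := max_lt (max_lt hc1 hd1) zero_lt_one
  linarith

theorem tendsto_one_sub : Tendsto (fun k : ℕ => 1 - 1 / ((k : ℝ) + 2)) atTop (𝓝 1) := by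
  have h1 := ((tendsto_one_div_add_atTop_nhds_zero_nat (𝕜 := ℝ)).comp
    (tendsto_add_atTop_nat 1)).const_sub 1
  rw [sub_zero] at h1
  refine h1.congr fun k => ?_
  simp only [Function.comp_apply]
  push_cast
  ring

theorem one_sub_pos (k : ℕ) : 0 < 1 - 1 / ((k : ℝ) + 2) := by
  have h : (0 : ℝ) < (k : ℝ) + 2 := by positivity
  rw [sub_pos, div_lt_one h]
  linarith [(Nat.cast_nonneg k : (0 : ℝ) ≤ k)]

theorem one_sub_lt (k : ℕ) : 1 - 1 / ((k : ℝ) + 2) < 1 := by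
  have h : (0 : ℝ) < 1 / ((k : ℝ) + 2) := by positivity
  linarith

theorem norming_weaklyNull (hW : WMP 𝕜 E (BoundedContinuousFunction ℕ 𝕜))
    {h : ℕ → E →L[𝕜] 𝕜} (hh1 : ∀ n, ‖h n‖ = 1)
    (hh0 : ∀ x, Tendsto (fun n => h n x) atTop (𝓝 0)) {x : ℕ → E} (hx : ∀ n, ‖x n‖ = 1)
    (hlim : Tendsto (fun n => ‖h n (x n)‖) atTop (𝓝 1)) : WeaklyNull 𝕜 x := by
  refine key hW (fun k => ((1 - 1 / ((k : ℝ) + 2) : ℝ) : 𝕜) • h k) (fun k => ?_) (fun y hy => ?_)
    x hx ?_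
  · rw [norm_smul, RCLike.norm_ofReal, abs_of_pos (one_sub_pos k), hh1, mul_one]
    exact one_sub_lt k
  · refine ⟨1 / 2, by norm_num, ?_⟩
    have h1 : Tendsto (fun n => ‖h n y‖) atTop (𝓝 0) := by simpa using (hh0 y).norm
    filter_upwards [h1.eventually_le_const (by norm_num : (0 : ℝ) < 1 / 2)] with k hk
    rw [smul_apply, norm_smul, RCLike.norm_ofReal, abs_of_pos (one_sub_pos k)]
    have := one_sub_lt k
    have := one_sub_pos k
    nlinarith [norm_nonneg (h k y)]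
  · have h1 := tendsto_one_sub.mul hlim
    rw [one_mul] at h1
    refine h1.congr fun k => ?_
    rw [smul_apply, norm_smul, RCLike.norm_ofReal, abs_of_pos (one_sub_pos k)]

theorem eventually_norm_add_le (hW : WMP 𝕜 E (BoundedContinuousFunction ℕ 𝕜))
    {h : ℕ → E →L[𝕜] 𝕜} (hh1 : ∀ n, ‖h n‖ = 1)
    (hh0 : ∀ x, Tendsto (fun n => h n x) atTop (𝓝 0)) (g : E →L[𝕜] 𝕜) {ε : ℝ} (hε : 0 < ε) :
    ∀ᶠ n in atTop, ‖g + h n‖ ≤ max ‖g‖ 1 + ε := by
  by_contra hcon
  rw [not_eventually] at hcon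
  obtain ⟨φ, hφ, hbig⟩ := extraction_of_frequently_atTop hcon
  simp only [not_le] at hbig
  set M := max ‖g‖ 1 with hM
  have hM1 : 1 ≤ M := le_max_right _ _
  have hMg : ‖g‖ ≤ M := le_max_left _ _
  have hpos : ∀ k, 0 < ‖g + h (φ k)‖ := fun k => by have := hbig k; linarith
  let t : ℕ → E →L[𝕜] 𝕜 := fun k =>
    (((1 - 1 / ((k : ℝ) + 2)) * ‖g + h (φ k)‖⁻¹ : ℝ) : 𝕜) • (g + h (φ k))
  have hcoef : ∀ k : ℕ, 0 < (1 - 1 / ((k : ℝ) + 2)) * ‖g + h (φ k)‖⁻¹ := fun k =>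
    mul_pos (one_sub_pos k) (inv_pos.mpr (hpos k))
  have htn : ∀ k, ‖t k‖ = 1 - 1 / ((k : ℝ) + 2) := by
    intro k
    simp only [t]
    rw [norm_smul, RCLike.norm_ofReal, abs_of_pos (hcoef k), mul_assoc,
      inv_mul_cancel₀ (hpos k).ne', mul_one]
  have htx : ∀ k x, ‖t k x‖ ≤ ‖g x + h (φ k) x‖ / (M + ε) := by
    intro k x
    simp only [t]
    rw [smul_apply, norm_smul, RCLike.norm_ofReal, abs_of_pos (hcoef k), add_apply,
      div_eq_inv_mul ‖g x + h (φ k) x‖]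
    refine mul_le_mul_of_nonneg_right ?_ (norm_nonneg (g x + h (φ k) x))
    have h1 : ‖g + h (φ k)‖⁻¹ ≤ (M + ε)⁻¹ := inv_anti₀ (by linarith) (hbig k).le
    have h2 := one_sub_lt k
    have h3 := one_sub_pos k
    have h4 : 0 < ‖g + h (φ k)‖⁻¹ := inv_pos.mpr (hpos k)
    nlinarith
  have hex : ∀ k : ℕ, ∃ x : E, ‖x‖ = 1 ∧ (1 - 1 / ((k : ℝ) + 2)) * ‖t k‖ < ‖t k x‖ := by
    intro k
    apply exists_unit_lt
    · exact mul_nonneg (one_sub_pos k).le (norm_nonneg (t k))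
    · rw [htn k]
      have := one_sub_lt k
      have := one_sub_pos k
      nlinarith
  choose x hx1 hx2 using hex
  have hlim : Tendsto (fun j => ‖t j (x j)‖) atTop (𝓝 1) := by
    have h1 := tendsto_one_sub.mul tendsto_one_sub
    rw [one_mul] at h1
    refine tendsto_of_tendsto_of_tendsto_of_le_of_le h1 tendsto_const_nhds (fun k => ?_)
      (fun k => ?_)
    · have := hx2 k
      rw [htn k] at this
      exact this.le
    · have h2 := (t k).le_opNorm (x k)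
      rw [hx1 k, mul_one, htn k] at h2
      have := one_sub_lt k
      show ‖t k (x k)‖ ≤ 1
      linarith
  have hwn := key hW t (fun k => by rw [htn k]; exact one_sub_lt k) (fun y hy => by
    refine ⟨(M + ε / 2) / (M + ε), ?_, ?_⟩
    · rw [div_lt_one (by linarith)]
      linarith
    · have h1 : Tendsto (fun k => ‖g y + h (φ k) y‖) atTop (𝓝 ‖g y + 0‖) :=
        (((hh0 y).comp hφ.tendsto_atTop).const_add (g y)).norm
      rw [add_zero] at h1
      have h2 : ‖g y‖ < M + ε / 2 := by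
        have := g.le_opNorm y
        rw [hy, mul_one] at this
        linarith
      filter_upwards [h1.eventually_le_const h2] with k hk
      refine (htx k y).trans ?_
      gcongr) x hx1 hlim
  have h1 : Tendsto (fun k => (‖g (x k)‖ + 1) / (M + ε)) atTop (𝓝 ((0 + 1) / (M + ε))) := by
    have h2 : Tendsto (fun k => ‖g (x k)‖) atTop (𝓝 0) := by simpa using (hwn g).norm
    exact (h2.add_const 1).div_const _
  have h3 : (1 : ℝ) ≤ (0 + 1) / (M + ε) := by
    refine le_of_tendsto_of_tendsto' hlim h1 fun k => ?_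
    refine (htx k (x k)).trans ?_
    have h4 : ‖g (x k) + h (φ k) (x k)‖ ≤ ‖g (x k)‖ + 1 := by
      refine (norm_add_le _ _).trans ?_
      have h5 := (h (φ k)).le_opNorm (x k)
      rw [hx1 k, hh1, mul_one] at h5
      linarith
    gcongr
  rw [zero_add, le_div_iff₀ (by linarith)] at h3
  linarith

/-- The heart of the matter: the two weak maximizing properties exclude normalized weak* null
sequences. -/
theorem no_weakStar_null (hW : WMP 𝕜 E (BoundedContinuousFunction ℕ 𝕜))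
    {h : ℕ → E →L[𝕜] 𝕜} (hh1 : ∀ n, ‖h n‖ = 1)
    (hh0 : ∀ x, Tendsto (fun n => h n x) atTop (𝓝 0)) : False := by
  -- norming vectors
  have hex : ∀ k : ℕ, ∃ x : E, ‖x‖ = 1 ∧ 1 - 1 / ((k : ℝ) + 2) < ‖h k x‖ := by
    intro k
    apply exists_unit_lt (h k) (one_sub_pos k).le
    rw [hh1]
    exact one_sub_lt k
  choose x hx1 hx2 using hex
  have hxle : ∀ k j, ‖h k (x j)‖ ≤ 1 := fun k j => by
    have h1 := (h k).le_opNorm (x j)
    rwa [hh1, hx1, mul_one] at h1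
  have hlim : Tendsto (fun n => ‖h n (x n)‖) atTop (𝓝 1) :=
    tendsto_of_tendsto_of_tendsto_of_le_of_le tendsto_one_sub tendsto_const_nhds
      (fun n => (hx2 n).le) (fun n => hxle n n)
  have hwn : WeaklyNull 𝕜 x := norming_weaklyNull hW hh1 hh0 hx1 hlim
  -- one step of the construction
  have hstep : ∀ s : Finset ℕ, ∃ n, (∀ i ∈ s, i < n) ∧
      ‖(∑ i ∈ s, h i) + h n‖ ≤ max ‖∑ i ∈ s, h i‖ 1 + (1 / 4) * (1 / 2) ^ (s.card + 1) ∧
      ‖(∑ i ∈ s, h i) (x n)‖ ≤ 1 / 16 ∧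
      ∀ i ∈ s, ‖h n (x i)‖ ≤ (1 / 16) * (1 / 2) ^ (s.card + 1) := by
    intro s
    have e1 : ∀ᶠ n in atTop, ∀ i ∈ s, i < n := by
      rw [Filter.eventually_all_finset]
      intro i _
      exact eventually_gt_atTop i
    have e2 : ∀ᶠ n in atTop,
        ‖(∑ i ∈ s, h i) + h n‖ ≤ max ‖∑ i ∈ s, h i‖ 1 + (1 / 4) * (1 / 2) ^ (s.card + 1) :=
      eventually_norm_add_le hW hh1 hh0 _ (by positivity)
    have e3 : ∀ᶠ n in atTop, ‖(∑ i ∈ s, h i) (x n)‖ ≤ 1 / 16 := by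
      have h1 : Tendsto (fun n => ‖(∑ i ∈ s, h i) (x n)‖) atTop (𝓝 0) := by
        simpa using (hwn (∑ i ∈ s, h i)).norm
      exact h1.eventually_le_const (by norm_num)
    have e4 : ∀ᶠ n in atTop, ∀ i ∈ s, ‖h n (x i)‖ ≤ (1 / 16) * (1 / 2) ^ (s.card + 1) := by
      rw [Filter.eventually_all_finset]
      intro i _
      have h1 : Tendsto (fun n => ‖h n (x i)‖) atTop (𝓝 0) := by
        simpa using (hh0 (x i)).norm
      exact h1.eventually_le_const (by positivity)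
    exact (e1.and (e2.and (e3.and e4))).exists
  choose nxt hn1 hn2 hn3 hn4 using hstep
  obtain ⟨s, hs0, hs⟩ : ∃ s : ℕ → Finset ℕ, s 0 = ∅ ∧ ∀ k, s (k + 1) = insert (nxt (s k)) (s k) :=
    ⟨fun n => Nat.rec ∅ (fun _ t => insert (nxt t) t) n, rfl, fun k => rfl⟩
  have hnot : ∀ k, nxt (s k) ∉ s k := fun k hk => lt_irrefl _ (hn1 (s k) _ hk)
  have hcard : ∀ k, (s k).card = k := by
    intro k
    induction k with
    | zero => rw [hs0]; rfl
    | succ k ih => rw [hs, Finset.card_insert_of_notMem (hnot k), ih]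
  obtain ⟨N, hN⟩ : ∃ N : ℕ → ℕ, ∀ k, N k = nxt (s k) := ⟨_, fun k => rfl⟩
  obtain ⟨G, hG⟩ : ∃ G : ℕ → E →L[𝕜] 𝕜, ∀ k, G k = ∑ i ∈ s k, h i := ⟨_, fun k => rfl⟩
  have hG0 : G 0 = 0 := by rw [hG, hs0]; simp
  have hGs : ∀ k, G (k + 1) = G k + h (N k) := by
    intro k
    rw [hG, hG, hs, Finset.sum_insert (hnot k), hN, add_comm]
  have hNmem : ∀ i k, i < k → N i ∈ s k := by
    intro i k hik
    induction k, hik using Nat.le_induction with
    | base => rw [hs, hN]; exact Finset.mem_insert_self _ _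
    | succ k hk ih => rw [hs]; exact Finset.mem_insert_of_mem ih
  have hNlt : ∀ i k, i < k → N i < N k := by
    intro i k hik
    rw [hN k]
    exact hn1 (s k) _ (hNmem i k hik)
  have hNmono : StrictMono N := fun i k hik => hNlt i k hik
  have hb1 : ∀ k, ‖G (k + 1)‖ ≤ max ‖G k‖ 1 + (1 / 4) * (1 / 2) ^ (k + 1) := by
    intro k
    have h1 := hn2 (s k)
    rw [hcard, ← hG, ← hN, ← hGs] at h1
    exact h1
  have hb2 : ∀ k, ‖G k (x (N k))‖ ≤ 1 / 16 := by
    intro k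
    have h1 := hn3 (s k)
    rw [← hG, ← hN] at h1
    exact h1
  have hb3 : ∀ i k, i < k → ‖h (N k) (x (N i))‖ ≤ (1 / 16) * (1 / 2) ^ (k + 1) := by
    intro i k hik
    have h1 := hn4 (s k) (N i) (hNmem i k hik)
    rw [hcard, ← hN] at h1
    exact h1
  -- the partial sums are bounded by 5/4
  have hGb : ∀ k, ‖G k‖ ≤ 1 + (1 / 4) * (1 - (1 / 2) ^ k) := by
    intro k
    induction k with
    | zero => rw [hG0]; simp
    | succ k ih =>
      refine (hb1 k).trans ?_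
      have h1 : (0 : ℝ) ≤ (1 / 2) ^ k := by positivity
      have h2 : ((1 : ℝ) / 2) ^ k ≤ 1 := pow_le_one₀ (by norm_num) (by norm_num)
      have h3 : max ‖G k‖ 1 ≤ 1 + (1 / 4) * (1 - (1 / 2) ^ k) :=
        max_le ih (by nlinarith)
      have h4 : ((1 : ℝ) / 2) ^ (k + 1) = (1 / 2) * (1 / 2) ^ k := by ring
      rw [h4]
      linarith
  have hGb' : ∀ k, ‖G k‖ ≤ 5 / 4 := by
    intro k
    refine (hGb k).trans ?_
    have h1 : (0 : ℝ) ≤ (1 / 2) ^ k := by positivity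
    linarith
  -- values at the norming vectors
  have hval : ∀ m k, m < k →
      ‖G k (x (N m)) - h (N m) (x (N m))‖ ≤ 1 / 16 + (1 / 16) * ((1 / 2) ^ (m + 1) - (1 / 2) ^ k) := by
    intro m k hmk
    induction k, hmk using Nat.le_induction with
    | base =>
      rw [hGs, add_apply, add_sub_cancel_right]
      have := hb2 m
      simpa using this
    | succ k hk ih =>
      rw [hGs, add_apply]
      have h1 : (G k) (x (N m)) + (h (N k)) (x (N m)) - (h (N m)) (x (N m)) =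
        ((G k) (x (N m)) - (h (N m)) (x (N m))) + (h (N k)) (x (N m)) := by ring
      rw [h1]
      refine (norm_add_le _ _).trans ?_
      have h2 := hb3 m k hk
      have h4 : ((1 : ℝ) / 2) ^ (k + 1) = (1 / 2) * (1 / 2) ^ k := by ring
      rw [h4] at h2 ⊢
      linarith
  have hval' : ∀ m k, m < k → ‖G k (x (N m)) - h (N m) (x (N m))‖ ≤ 1 / 8 := by
    intro m k hmk
    refine (hval m k hmk).trans ?_
    have h1 : (0 : ℝ) ≤ (1 / 2) ^ k := by positivity
    have h2 : ((1 : ℝ) / 2) ^ (m + 1) ≤ 1 := pow_le_one₀ (by norm_num) (by norm_num)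
    linarith
  -- the cluster point
  obtain ⟨g, hg1, hg2⟩ := exists_ultralimit (hyperfilter ℕ) G (5 / 4) hGb'
  have hgval : ∀ m, ‖g (x (N m)) - h (N m) (x (N m))‖ ≤ 1 / 8 := by
    intro m
    refine le_of_tendsto ((hg2 (x (N m))).sub_const _).norm (Nat.hyperfilter_le_atTop ?_)
    filter_upwards [eventually_gt_atTop m] with k hk
    exact hval' m k hk
  -- the contradiction
  have e1 : ∀ᶠ n in atTop, ‖g + h n‖ ≤ max ‖g‖ 1 + 1 / 8 :=
    eventually_norm_add_le hW hh1 hh0 g (by norm_num)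
  have e2 : ∀ᶠ n in atTop, 15 / 16 < ‖h n (x n)‖ := hlim.eventually_const_lt (by norm_num)
  obtain ⟨m, hm1, hm2⟩ := (hNmono.tendsto_atTop.eventually (e1.and e2)).exists
  have h1 : ‖g + h (N m)‖ ≤ 11 / 8 := by
    refine hm1.trans ?_
    have : max ‖g‖ 1 ≤ 5 / 4 := max_le hg1 (by norm_num)
    linarith
  have h2 : ‖(g + h (N m)) (x (N m))‖ ≤ 11 / 8 := by
    have h3 := (g + h (N m)).le_opNorm (x (N m))
    rw [hx1, mul_one] at h3
    exact h3.trans h1
  have h3 : (2 : 𝕜) * h (N m) (x (N m)) =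
      (g + h (N m)) (x (N m)) - (g (x (N m)) - h (N m) (x (N m))) := by
    rw [add_apply]; ring
  have h4 : ‖(2 : 𝕜) * h (N m) (x (N m))‖ ≤ 11 / 8 + 1 / 8 := by
    rw [h3]
    exact (norm_sub_le _ _).trans (add_le_add h2 (hgval m))
  rw [norm_mul, RCLike.norm_ofNat] at h4
  linarith

end Final

/-- **Main theorem.** Let `E` be a Banach space over `𝕜 = ℝ` or `ℂ` such that the pair `(E, F)`
has the weak maximizing property for every Banach space `F`. Then `E` is finite dimensional. -/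
theorem result (𝕜 : Type) [RCLike 𝕜] (E : Type u) [NormedAddCommGroup E] [NormedSpace 𝕜 E]
    [CompleteSpace E]
    (h : ∀ (F : Type) [NormedAddCommGroup F] [NormedSpace 𝕜 F] [CompleteSpace F], WMP 𝕜 E F) :
    FiniteDimensional 𝕜 E := by
  by_contra hinf
  have hnt : Nontrivial E := by
    by_contra hs
    rw [not_nontrivial_iff_subsingleton] at hs
    exact hinf inferInstance
  obtain ⟨f, hf1, hf0⟩ := exists_weakStar_null (𝕜 := 𝕜) (E := E) (NA_of_WMP (h 𝕜)) hinf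
  exact no_weakStar_null (h (BoundedContinuousFunction ℕ 𝕜)) hf1 hf0

end Pool.Agent.Results.MP_479f73_an.WMPFiniteDim
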